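import Pool.Agent.MP_3ee8cb_gt.D3IN.Spec
import Pool.Agent.MP_3ee8cb_gt.CR.RSCALE
import Pool.Agent.MP_3ee8cb_gt.LV.All

/-! Reduction to upper curvature bound minus one by scaling both metrics. -/

namespace Pool.Agent.MP_3ee8cb_gt.D3IN

open CR LV Set Filter Topology
open scoped ContDiff

variable {n : ℕ}

namespace Sca

theorem chr (c : ℝ) {h : Met n} {C : TB.Chr n} (hC : TB.IsChr h C) :
    TB.IsChr (scale_m c h) C := by
  intro x u v w
  have h3 : fderiv ℝ (scale_m c h) = (c * c)⁻¹ • fderiv ℝ h :=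
    fderiv_const_smul_field (𝕜 := ℝ) (f := h) (c * c)⁻¹
  have h4 := hC x u v w
  rw [h3, scale_app]
  simp only [Pi.smul_apply, smul_apply, smul_eq_mul]
  linear_combination (c * c)⁻¹ * h4

theorem app {a : ℝ} (g : Met n) (x u v : E n) : scale_m a⁻¹ g x u v = a ^ 2 * g x u v := by
  rw [scale_app, ← mul_inv, inv_inv, sq]

theorem pinch {a : ℝ} (ha : 0 < a) {h : Met n} {a' b' : ℝ} (hp : Pinch h a' b') :
    Pinch (scale_m a⁻¹ h) (a' / a) (b' / a) := by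
  obtain ⟨C, hC, hc⟩ := hp
  refine ⟨C, chr _ hC, fun x u v => ?_⟩
  obtain ⟨h1, h2⟩ := hc x u v
  have h0 : 0 ≤ a ^ 2 := sq_nonneg a
  have e : ∀ t : ℝ, -(t / a) ^ 2 * (a ^ 2 * h x u u * (a ^ 2 * h x v v) - (a ^ 2 * h x u v) ^ 2) =
      a ^ 2 * (-t ^ 2 * (h x u u * h x v v - h x u v ^ 2)) := fun t => by
    field_simp
  simp only [app, e]
  exact ⟨mul_le_mul_of_nonneg_left h1 h0, mul_le_mul_of_nonneg_left h2 h0⟩

theorem curv {a : ℝ} {h : Met n} (hp : TB.CurvLe h 0) : TB.CurvLe (scale_m a⁻¹ h) 0 := by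
  obtain ⟨C, hC, hc⟩ := hp
  refine ⟨C, chr _ hC, fun x u v => ?_⟩
  have h1 := hc x u v
  have h0 : 0 ≤ a ^ 2 := sq_nonneg a
  simp only [app]
  have h2 : h x (TB.Rm C x u v v) u ≤ 0 := by simpa using h1
  have h3 := mul_nonpos_of_nonneg_of_nonpos h0 h2
  simpa using h3

theorem sm {c : ℝ} (hc : c ≠ 0) {g : Met 3} {Γ : Type} [Group Γ] [MulAction Γ (E 3)]
    {Φ : ℝ → UT g → UT g} (H : SM g Γ Φ) : SM (scale_m c g) Γ (scale_f hc Φ) :=
  ⟨all_qp (by norm_num) (scale_riem hc H.qp.rp.riem) (scale_deck _ H.qp.rp.deck)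
    (scale_flow hc H.qp.rp.flow), H.sm.const_smul (c * c)⁻¹, H.act⟩

/-- The scaled conjugacy. -/
noncomputable def sc {c : ℝ} (hc : c ≠ 0) {g h : Met n} (F : UT g ≃ₜ UT h) :
    UT (scale_m c g) ≃ₜ UT (scale_m c h) := (scale_s hc g).trans (F.trans (scale_s hc h).symm)

theorem sc_val {c : ℝ} (hc : c ≠ 0) {g h : Met n} (F : UT g ≃ₜ UT h) (p : UT (scale_m c g)) :
    (sc hc F p).1 = ((F (scale_s hc g p)).1.1, c • (F (scale_s hc g p)).1.2) := rfl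

theorem s_val {c : ℝ} (hc : c ≠ 0) (g : Met n) (p : UT (scale_m c g)) :
    (scale_s hc g p).1 = (p.1.1, c⁻¹ • p.1.2) := rfl

theorem s_symm {c : ℝ} (hc : c ≠ 0) (g : Met n) (p : UT g) :
    ((scale_s hc g).symm p).1 = (p.1.1, c • p.1.2) := rfl

theorem cj {c : ℝ} (hc : c ≠ 0) {g h : Met n} {Γ Λ : Type} [Group Γ] [Group Λ]
    [MulAction Γ (E n)] [MulAction Λ (E n)] {Φ : ℝ → UT g → UT g} {Ψ : ℝ → UT h → UT h}
    {ρ : Γ ≃* Λ} {F : UT g ≃ₜ UT h} (H : CJ g h Φ Ψ ρ F) :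
    CJ (scale_m c g) (scale_m c h) (scale_f hc Φ) (scale_f hc Ψ) ρ (sc hc F) where
  flow t p := by
    simp only [sc, scale_f, Homeomorph.trans_apply, Homeomorph.apply_symm_apply, H.flow]
  equi γ p q e := by
    have h1 : (scale_s hc g q).1 = tm γ (scale_s hc g p).1 := by
      rw [s_val, s_val, e]
      simp only [tm, map_smul]
    have h2 := H.equi γ _ _ h1
    rw [sc_val, sc_val, h2]
    simp only [tm, map_smul]

theorem c1 {g g' h h' : Met n} {F : UT g → UT h} (s : UT g' → UT g) (t : UT h → UT h')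
    (c d : ℝ) (hs : Continuous s) (es : ∀ p, (s p).1 = (p.1.1, c • p.1.2))
    (et : ∀ p, (t p).1 = (p.1.1, d • p.1.2)) (H : C1F F) : C1F fun p => t (F (s p)) := by
  intro p
  obtain ⟨φ, h1, h2⟩ := H (s p)
  have hl : ∀ r : ℝ, ContDiff ℝ 1 fun z : E n × E n => (z.1, r • z.2) := fun r => by fun_prop
  refine ⟨fun z => ((φ (z.1, c • z.2)).1, d • (φ (z.1, c • z.2)).2), ?_, ?_⟩
  · rw [es] at h1
    exact (hl d).contDiffAt.comp p.1 (h1.comp p.1 (hl c).contDiffAt)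
  · filter_upwards [hs.continuousAt.eventually h2] with q hq
    rw [et, hq, es]

theorem c1_sc {c : ℝ} (hc : c ≠ 0) {g h : Met n} {F : UT g ≃ₜ UT h} (H : C1F F) :
    C1F (sc hc F) :=
  c1 (scale_s hc g) (scale_s hc h).symm c⁻¹ c (scale_s hc g).continuous (s_val hc g)
    (s_symm hc h) H

theorem c1_sc' {c : ℝ} (hc : c ≠ 0) {g h : Met n} {F : UT g ≃ₜ UT h} (H : C1F F.symm) :
    C1F (sc hc F).symm :=
  c1 (scale_s hc h) (scale_s hc g).symm c⁻¹ c (scale_s hc h).continuous (s_val hc h)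
    (s_symm hc g) H

theorem c1_back {c : ℝ} (hc : c ≠ 0) {g h : Met n} {F : UT g ≃ₜ UT h} (H : C1F (sc hc F)) :
    C1F F := by
  have h1 := c1 (scale_s hc g).symm (scale_s hc h) c c⁻¹ (scale_s hc g).symm.continuous
    (s_symm hc g) (s_val hc h) H
  have h2 : (fun p => scale_s hc h (sc hc F ((scale_s hc g).symm p))) = F := by
    funext p
    simp only [sc, Homeomorph.trans_apply, Homeomorph.apply_symm_apply]
  rwa [h2] at h1

theorem lt {a a' b r : ℝ} (ha : 0 < a) (h : b ^ 2 < r * a' ^ 2) :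
    (b / a) ^ 2 < r * (a' / a) ^ 2 := by
  rw [div_pow, div_pow, ← mul_div_assoc]
  exact div_lt_div_of_pos_right h (by positivity)

end Sca

open Sca

theorem sca : SSCA := by
  intro H a ha g h Γ Λ _ _ _ _ Φ Ψ ρ F hg hh hF b hb hc hp h1 h2
  have hc0 : a⁻¹ ≠ 0 := inv_ne_zero ha.ne'
  have hp' := pinch ha hp
  have hb' := lt ha hb
  rw [div_self ha.ne'] at hp' hb'
  obtain ⟨f, f1, f2, f3, f4⟩ := H _ _ Γ Λ _ _ ρ (sc hc0 F) (sm hc0 hg) (sm hc0 hh) (cj hc0 hF)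
    (b / a) hb' (curv hc) hp' (c1_sc hc0 h1) (c1_sc' hc0 h2)
  refine ⟨f, f1, f2, fun x u v => ?_, f4⟩
  have h5 := f3 x u v
  rw [app, app] at h5
  exact mul_left_cancel₀ (pow_ne_zero 2 ha.ne') h5

theorem scb : SSCB := by
  intro H a ha g h Γ Λ _ _ _ _ Φ Ψ ρ F hg hh hF b a' b' ha' hb hb' hp hq
  have hc0 : a⁻¹ ≠ 0 := inv_ne_zero ha.ne'
  have hq' := pinch ha hq
  have hb1 := lt ha hb
  rw [div_self ha.ne'] at hq' hb1
  exact c1_back hc0 (H _ _ Γ Λ _ _ ρ (sc hc0 F) (sm hc0 hg) (sm hc0 hh) (cj hc0 hF)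
    (b / a) (a' / a) (b' / a) (div_pos ha' ha) hb1 (lt ha hb') (pinch ha hp) hq')

end Pool.Agent.MP_3ee8cb_gt.D3IN
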