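import Pool.Agent.MP_3ee8cb_gt.D3IN.Spec

/-! Means over the ball and over the sphere. -/

namespace Pool.Agent.MP_3ee8cb_gt.D3IN

open CR Set MeasureTheory Metric

theorem sph : SSPH := by
  intro n w hn _
  have : NeZero n := ⟨hn.ne'⟩
  have hd : Module.finrank ℝ (E n) = n := finrank_euclideanSpace_fin
  let χ : Ioi (0 : ℝ) → ℝ := (Iio (⟨1, mem_Ioi.2 one_pos⟩ : Ioi (0 : ℝ))).indicator 1
  have h1 := (volume : Measure (E n)).measurePreserving_homeomorphUnitSphereProd.integral_comp
    (Homeomorph.measurableEmbedding _) fun z => w z.1 * χ z.2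
  have h2 : ∫ r, χ r ∂Measure.volumeIoiPow (Module.finrank ℝ (E n) - 1) = (n : ℝ)⁻¹ := by
    rw [integral_indicator_one measurableSet_Iio, Measure.real, Measure.volumeIoiPow_apply_Iio,
      ENNReal.toReal_ofReal (by positivity), hd, one_pow, Nat.cast_pred hn, sub_add_cancel, one_div]
  rw [integral_prod_mul (fun s : sphere (0 : E n) 1 => w s) χ, h2, mul_comm] at h1
  rw [← h1, ← integral_indicator measurableSet_ball]
  refine ((congrArg (integral · _) (restrict_compl_singleton 0)).symm.trans
    (integral_subtype_comap (measurableSet_singleton _).compl _).symm).trans ?_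
  refine integral_congr_ae (.of_forall fun x => ?_)
  have e : (homeomorphUnitSphereProd (E n) x).2 ∈ Iio (⟨1, mem_Ioi.2 one_pos⟩ : Ioi (0 : ℝ)) ↔
      x.1 ∈ ball (0 : E n) 1 := by
    rw [mem_Iio, ← Subtype.coe_lt_coe, homeomorphUnitSphereProd_apply_snd_coe, mem_ball_zero_iff]
  by_cases h : x.1 ∈ ball (0 : E n) 1
  · simp only [χ, indicator_of_mem h, indicator_of_mem (e.2 h), Pi.one_apply, mul_one,
      homeomorphUnitSphereProd_apply_fst_coe]
  · simp only [χ, indicator_of_notMem h, indicator_of_notMem (mt e.1 h), mul_zero]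

end Pool.Agent.MP_3ee8cb_gt.D3IN
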