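import Pool.Agent.MP_3ee8cb_gt.D3IN.Spec2

/-! The abstract averaging lemma. -/

namespace Pool.Agent.MP_3ee8cb_gt.D3IN

open D3 Set Filter MeasureTheory Topology

theorem abs' : SABS := by
  intro X _ ν _ f k C c hf hk hb hd h10 hc
  let k' : ℝ × X → ℝ := fun p => max (-C) (min C (k p))
  have hk' : Measurable k' := measurable_const.max (measurable_const.min hk)
  have hbd : ∀ p, ‖k' p‖ ≤ |C| := fun p => by
    rw [Real.norm_eq_abs, abs_le]
    refine ⟨(neg_le_neg (le_abs_self C)).trans (le_max_left _ _), max_le (neg_le_abs C) ?_⟩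
    exact (min_le_left _ _).trans (le_abs_self C)
  have he : ∀ᵐ x ∂ν, ∀ t, k' (t, x) = k (t, x) := by
    filter_upwards [hb] with x hx t
    have := abs_le.1 (hx t).2
    simp only [k', min_eq_right this.2, max_eq_right this.1]
  have hc' : ∀ t, ∫ x, k' (t, x) ∂ν = c := fun t => by
    rw [← hc t]
    exact integral_congr_ae (he.mono fun x hx => hx t)
  have hI : Integrable (Function.uncurry fun (t : ℝ) (x : X) => k' (t, x))
      ((volume.restrict (Ioc (0 : ℝ) 1)).prod ν) :=
    Integrable.of_bound hk'.aestronglyMeasurable |C| (Eventually.of_forall hbd)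
  have hfi : ∀ t, Integrable (fun x => f (t, x)) ν := fun t =>
    Integrable.of_bound (hf.comp measurable_prodMk_left).aestronglyMeasurable C
      (hb.mono fun x hx => (hx t).1)
  have hle : ∀ᵐ x ∂ν, f (1, x) - f (0, x) ≤ ∫ t in Ioc (0 : ℝ) 1, k' (t, x) := by
    filter_upwards [he] with x hx
    choose d hd1 hd2 using hd x
    rw [← intervalIntegral.integral_of_le zero_le_one]
    refine intervalIntegral.sub_le_integral_of_hasDeriv_right_of_le (g := fun s => f (s, x))
      (g' := d) zero_le_one (fun s _ => (hd1 s).continuousAt.continuousWithinAt)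
      (fun s _ => (hd1 s).hasDerivWithinAt) ?_ fun s _ => (hd2 s).trans (hx s).ge
    exact Integrable.of_bound (hk'.comp measurable_prodMk_right).aestronglyMeasurable |C|
      (Eventually.of_forall fun t => hbd _)
  have h1 := integral_mono_ae ((hfi 1).sub (hfi 0)) hI.integral_prod_right hle
  rw [show (fun x => f (1, x)) - (fun x => f (0, x)) = fun x => f (1, x) - f (0, x) from rfl,
    integral_sub (hfi 1) (hfi 0), h10, sub_self] at h1
  have h2 := integral_integral_swap hI
  simp only [hc'] at h2
  simp only [Function.uncurry] at h1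
  rw [← h2] at h1
  simpa using h1

end Pool.Agent.MP_3ee8cb_gt.D3IN
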