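import Pool.Agent.MP_3ee8cb_gt.D3IN.Spec

/-! A fibre preserving conjugacy comes from an isometry. -/

namespace Pool.Agent.MP_3ee8cb_gt.D3IN

open CR LV Set Filter Topology

namespace REnd

variable {n : ℕ} {g : Met n}

theorem unit (hg : Riem g) (x : E n) {v : E n} (hv : v ≠ 0) :
    ∃ (p : UT g) (t : ℝ), 0 < t ∧ p.1.1 = x ∧ v = t • p.1.2 := by
  have h0 := hg.pos x v hv
  have h1 : 0 < √(g x v v) := Real.sqrt_pos.2 h0
  refine ⟨⟨(x, (√(g x v v))⁻¹ • v), ?_⟩, √(g x v v), h1, rfl, ?_⟩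
  · simp only [map_smul, ContinuousLinearMap.smul_apply, smul_eq_mul]
    have h2 := Real.mul_self_sqrt h0.le
    field_simp
    nlinarith
  · simp only [smul_smul, mul_inv_cancel₀ h1.ne', one_smul]

theorem ne_zero (p : UT g) : p.1.2 ≠ 0 := fun e => by
  have := p.2
  rw [e] at this
  simp at this

end REnd

open REnd

theorem en (ext : SEXT) : SEND := by
  intro n g h Γ Λ _ _ _ _ Φ Ψ ρ F hn qp qh cj hmin hC hfib
  have rg := qp.rp.riem
  have rh := qh.rp.riem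
  obtain ⟨⟨φ, hφ⟩, -⟩ := ext n g h F rg hC
  obtain ⟨e, he⟩ : ∃ e : E n, e ≠ 0 :=
    ⟨EuclideanSpace.single ⟨0, hn⟩ 1, fun e => by simpa using congrArg norm e⟩
  set F0 : E n → E n := fun x => (φ (x, e)).1 with hF0
  have hd : ContDiff ℝ 1 F0 := by
    have h1 : ContDiff ℝ 1 fun x : E n => φ (x, e) :=
      hφ.smooth.comp_contDiff (contDiff_id.prodMk contDiff_const) fun _ => he
    exact h1.fst
  have hv : ∀ p : UT g, F0 p.1.1 = (F p).1.1 := fun p => by
    obtain ⟨q, t, ht, h1, h2⟩ := unit rg p.1.1 he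
    have h3 : φ (p.1.1, e) = (F q).1 := by
      rw [h2, hφ.hom _ _ t ht (ne_zero q), ← h1, hφ.val]
    show (φ (p.1.1, e)).1 = _
    rw [h3]
    exact hfib q p h1
  have hD : ∀ p : UT g, fderiv ℝ F0 p.1.1 p.1.2 = (F p).1.2 := fun p => by
    have h1 := qp.rp.flow.vel p 0
    have h2 := qh.rp.flow.vel (F p) 0
    have h3 := (hd.differentiable one_ne_zero (Φ 0 p).1.1).hasFDerivAt.comp_hasDerivAt 0 h1
    have h4 : (F0 ∘ fun s => (Φ s p).1.1) = fun s => (Ψ s (F p)).1.1 := by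
      funext s
      rw [Function.comp_apply, hv, cj.flow]
    rw [h4] at h3
    have h5 := h3.unique h2
    rwa [qp.rp.flow.zero, qh.rp.flow.zero] at h5
  have hq : ∀ x v, h (F0 x) (fderiv ℝ F0 x v) (fderiv ℝ F0 x v) = g x v v := fun x v => by
    by_cases h0 : v = 0
    · simp [h0]
    obtain ⟨p, t, -, rfl, rfl⟩ := unit rg x h0
    simp only [map_smul, ContinuousLinearMap.smul_apply, smul_eq_mul]
    rw [hD, hv, p.2, (F p).2]
  refine ⟨F0, ⟨fun x y hxy => ?_, fun y => ?_⟩, hd, fun x u v => ?_, fun γ x => ?_⟩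
  · obtain ⟨p, rfl, h2⟩ := qp.rp.hr x y
    have h3 := hmin (F p) 0 (dd g p.1.1 y)
    rw [qh.rp.flow.zero, ← cj.flow, ← hv, ← hv, h2, hxy, qh.rp.db.refl, zero_sub, abs_neg] at h3
    rw [abs_eq_zero.1 h3.symm, qp.rp.flow.zero] at h2
    exact h2
  · obtain ⟨q, -, -, h1, -⟩ := unit rh y he
    exact ⟨(F.symm q).1.1, by rw [hv, F.apply_symm_apply, h1]⟩
  · have h1 := hq x (u + v)
    have h2 := hq x u
    have h3 := hq x v
    have h4 := rg.symm x v u
    have h5 := rh.symm (F0 x) (fderiv ℝ F0 x v) (fderiv ℝ F0 x u)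
    simp only [map_add, ContinuousLinearMap.add_apply] at h1
    linarith
  · obtain ⟨p, -, -, rfl, -⟩ := unit rg x he
    have h1 := cj.equi γ p ⟨tm γ p.1, (qp.rp.deck.iso γ p.1.1 p.1.2 p.1.2).trans p.2⟩ rfl
    have h2 := hv ⟨tm γ p.1, (qp.rp.deck.iso γ p.1.1 p.1.2 p.1.2).trans p.2⟩
    rw [h1] at h2
    rw [hv]
    exact h2

end Pool.Agent.MP_3ee8cb_gt.D3IN
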