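import Pool.Agent.MP_3ee8cb_gt.D3IN.Spec

/-! Homogeneous extensions of a map between unit tangent bundles. -/

namespace Pool.Agent.MP_3ee8cb_gt.D3IN

open CR LV Set Filter Topology

namespace RExt

variable {n : ℕ}

/-- the length of a vector -/
noncomputable def len (g : Met n) (z : E n × E n) : ℝ := √(g z.1 z.2 z.2)

/-- the direction of a vector -/
noncomputable def nu (g : Met n) (z : E n × E n) : E n × E n := (z.1, (len g z)⁻¹ • z.2)

variable {g h : Met n}

lemma len_pos (hg : Riem g) {z : E n × E n} (hz : z.2 ≠ 0) : 0 < len g z :=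
  Real.sqrt_pos.2 (hg.pos _ _ hz)

lemma len_cd (hg : Riem g) {z : E n × E n} (hz : z.2 ≠ 0) : ContDiffAt ℝ 1 (len g) z := by
  have h1 : ContDiff ℝ 1 fun z : E n × E n => g z.1 z.2 z.2 :=
    (((hg.smooth.of_le (by norm_num)).comp contDiff_fst).clm_apply contDiff_snd).clm_apply
      contDiff_snd
  exact h1.contDiffAt.sqrt (hg.pos _ _ hz).ne'

lemma nu_cd (hg : Riem g) {z : E n × E n} (hz : z.2 ≠ 0) : ContDiffAt ℝ 1 (nu g) z :=
  contDiffAt_fst.prodMk (((len_cd hg hz).inv (len_pos hg hz).ne').smul contDiffAt_snd)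

lemma nu_mem (hg : Riem g) {z : E n × E n} (hz : z.2 ≠ 0) :
    g (nu g z).1 (nu g z).2 (nu g z).2 = 1 := by
  have h1 := len_pos hg hz
  have h2 : len g z * len g z = g z.1 z.2 z.2 := Real.mul_self_sqrt (hg.pos _ _ hz).le
  simp only [nu, map_smul, smul_apply, smul_eq_mul]
  rw [← h2]
  field_simp

lemma len_smul (x v : E n) {t : ℝ} (ht : 0 < t) : len g (x, t • v) = t * len g (x, v) := by
  simp only [len, map_smul, smul_apply, smul_eq_mul]
  rw [← mul_assoc, Real.sqrt_mul (mul_self_nonneg t), Real.sqrt_mul_self ht.le]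

lemma nu_smul (x v : E n) {t : ℝ} (ht : 0 < t) : nu g (x, t • v) = nu g (x, v) := by
  simp only [nu, len_smul x v ht, smul_smul, mul_inv]
  rw [mul_comm t⁻¹, mul_assoc, inv_mul_cancel₀ ht.ne', mul_one]

lemma ut_ne (p : UT g) : p.1.2 ≠ 0 := by
  intro h0
  have := p.2
  rw [h0] at this
  simp at this

lemma len_ut (p : UT g) : len g p.1 = 1 := by
  rw [len, p.2, Real.sqrt_one]

lemma nu_ut (p : UT g) : nu g p.1 = p.1 := by
  rw [nu, len_ut, inv_one, one_smul]

open Classical in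
/-- the extension that is constant along rays -/
noncomputable def ph (hg : Riem g) (F : UT g → UT h) (z : E n × E n) : E n × E n :=
  if hz : z.2 ≠ 0 then (F ⟨nu g z, nu_mem hg hz⟩).1 else 0

lemma ph_of (hg : Riem g) (F : UT g → UT h) {z : E n × E n} (hz : z.2 ≠ 0) :
    ph hg F z = (F ⟨nu g z, nu_mem hg hz⟩).1 := dif_pos hz

lemma ph_val (hg : Riem g) (F : UT g → UT h) (p : UT g) : ph hg F p.1 = (F p).1 := by
  rw [ph_of hg F (ut_ne p)]
  congr 2
  exact Subtype.ext (nu_ut p)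

lemma ph_hom (hg : Riem g) (F : UT g → UT h) (x v : E n) {t : ℝ} (ht : 0 < t) (hv : v ≠ 0) :
    ph hg F (x, t • v) = ph hg F (x, v) := by
  rw [ph_of hg F (z := (x, t • v)) (smul_ne_zero ht.ne' hv), ph_of hg F (z := (x, v)) hv]
  congr 2
  exact Subtype.ext (nu_smul x v ht)

lemma ph_cd (hg : Riem g) {F : UT g → UT h} (hF : C1F F) {z : E n × E n} (hz : z.2 ≠ 0) :
    ContDiffAt ℝ 1 (ph hg F) z := by
  classical
  obtain ⟨φ, h1, h2⟩ := hF ⟨nu g z, nu_mem hg hz⟩
  have hev : ∀ᶠ w in 𝓝 z, w.2 ≠ 0 :=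
    continuous_snd.continuousAt.eventually_ne hz
  let L : E n × E n → UT g := fun w =>
    if hw : w.2 ≠ 0 then ⟨nu g w, nu_mem hg hw⟩ else ⟨nu g z, nu_mem hg hz⟩
  have hL : ∀ w (hw : w.2 ≠ 0), L w = ⟨nu g w, nu_mem hg hw⟩ := fun w hw => dif_pos hw
  have ht : Tendsto L (𝓝 z) (𝓝 ⟨nu g z, nu_mem hg hz⟩) := by
    rw [tendsto_subtype_rng]
    refine (nu_cd hg hz).continuousAt.tendsto.congr' ?_
    filter_upwards [hev] with w hw
    rw [hL w hw]
  refine (h1.comp z (nu_cd hg hz)).congr_of_eventuallyEq ?_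
  filter_upwards [hev, ht.eventually h2] with w hw hw'
  rw [hL w hw] at hw'
  rw [ph_of hg F hw]
  exact hw'

end RExt

open RExt in
theorem ext : SEXT := by
  intro n g h F hg hF
  refine ⟨⟨ph hg F, fun z hz => (ph_cd hg hF hz).contDiffWithinAt, ph_val hg F,
    fun x v t ht hv => ph_hom hg F x v ht hv⟩,
    fun z => ((ph hg F z).1, len g z • (ph hg F z).2), fun z hz => ?_, fun p => ?_,
    fun x v t ht hv => ?_⟩
  · exact ((ph_cd hg hF hz).fst.prodMk
      ((len_cd hg hz).smul (ph_cd hg hF hz).snd)).contDiffWithinAt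
  · simp only [ph_val, len_ut, one_smul]
  · simp only [ph_hom hg F x v ht hv, len_smul x v ht, smul_smul]

end Pool.Agent.MP_3ee8cb_gt.D3IN
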