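import Pool.Agent.MP_3ee8cb_gt.D3IN.Spec
import Pool.Agent.MP_3ee8cb_gt.LV.RVOL
import Pool.Agent.MP_3ee8cb_gt.LV.RLIFT2

/-! Liouville measure over a set and integration along the fibres. -/

namespace Pool.Agent.MP_3ee8cb_gt.D3IN

open CR LV Set Filter MeasureTheory Topology
open scoped RealInnerProductSpace

variable {n : ℕ}

/-- Liouville measure on the unit vectors over `D`. -/
noncomputable def nu (g : Met n) (D : Set (E n)) : Measure (UT g) :=
  ((Measure.comap (cov g) volume).restrict ({p | p.1.1 ∈ D} ×ˢ Iic (0 : ℝ))).map Prod.fst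

theorem cov_emb {g : Met n} (hg : Riem g) : MeasurableEmbedding (cov g) :=
  ⟨(cov' n g hg).inj, (cov' n g hg).cont.measurable, (cov' n g hg).meas⟩

theorem foot_meas (g : Met n) : Measurable fun p : UT g => p.1.1 :=
  measurable_fst.comp measurable_subtype_coe

theorem nu_apply {g : Met n} (hg : Riem g) {D : Set (E n)} {S : Set (UT g)}
    (mS : MeasurableSet S) : nu g D S = volume (cone g {p | p.1.1 ∈ D ∧ p ∈ S}) := by
  rw [nu, Measure.map_apply measurable_fst mS, Measure.restrict_apply (measurable_fst mS),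
    (cov_emb hg).comap_apply, (cov' n g hg).cone]
  congr 2
  ext a
  simp only [mem_inter_iff, mem_preimage, mem_prod, mem_setOf_eq]
  tauto

theorem cone_fin {g : Met n} (hn : 0 < n) (hg : Riem g) {D : Set (E n)} (mD : MeasurableSet D)
    (bD : Bornology.IsBounded D) : volume (cone g {p | p.1.1 ∈ D}) ≠ ⊤ := by
  rw [vol' n g D hn hg (cov' n g hg) mD, vol,
    ← lintegral_const_mul' _ _ measure_closedBall_lt_top.ne]
  have := w_fin hg D bD
  simpa only [vol_W hg] using this

theorem nu_fin {g : Met n} (hn : 0 < n) (hg : Riem g) {D : Set (E n)} (mD : MeasurableSet D)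
    (bD : Bornology.IsBounded D) : IsFiniteMeasure (nu g D) := by
  refine ⟨?_⟩
  rw [nu_apply hg .univ]
  simpa only [mem_univ, and_true] using (cone_fin hn hg mD bD).lt_top

theorem ae_ball (hn : 0 < n) : ∀ᵐ v : E n, v ≠ 0 ∧ ‖v‖ ≠ 1 := by
  have : Nonempty (Fin n) := ⟨⟨0, hn⟩⟩
  have h1 : ∀ᵐ v : E n, v ∉ ({0} : Set (E n)) :=
    measure_eq_zero_iff_ae_notMem.1 (measure_singleton 0)
  have h2 : ∀ᵐ v : E n, v ∉ Metric.sphere (0 : E n) 1 :=
    measure_eq_zero_iff_ae_notMem.1 (Measure.addHaar_sphere volume 0 1)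
  filter_upwards [h1, h2] with v a b
  exact ⟨a, by simpa using b⟩

theorem fib {g : Met n} (hn : 0 < n) (hg : Riem g) {D : Set (E n)} (mD : MeasurableSet D)
    (bD : Bornology.IsBounded D) {w : UT g → ℝ} (hw : Continuous w) {C : ℝ}
    (hC : ∀ p, |w p| ≤ C) : ∃ I : E n → ℝ, IntegrableOn I D ∧
      ∫ p, w p ∂nu g D = ∫ x in D, I x ∧ ∀ x R σ, Par g x R σ → ∃ c : ℝ, 0 < c ∧
        I x = c * ∫ v in Metric.ball (0 : E n) 1, w (σ v) := by
  classical
  have em := cov_emb hg
  let w₀ : UT g × ℝ → ℝ := (univ ×ˢ Iic (0 : ℝ)).indicator fun a => w a.1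
  have m₀ : Measurable w₀ :=
    (hw.measurable.comp measurable_fst).indicator (MeasurableSet.univ.prod measurableSet_Iic)
  let W : E n × E n → ℝ := Function.extend (cov g) w₀ 0
  have mW : Measurable W := em.measurable_extend m₀ measurable_const
  have eW : ∀ a, W (cov g a) = w₀ a := fun a => em.injective.extend_apply _ _ a
  have mA : MeasurableSet ({p : UT g | p.1.1 ∈ D} ×ˢ Iic (0 : ℝ)) :=
    (foot_meas g mD).prod measurableSet_Iic
  have mP : MeasurableSet (D ×ˢ (univ : Set (E n))) := mD.prod .univ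
  have key : (D ×ˢ (univ : Set (E n))).indicator W =
      (cov g '' ({p : UT g | p.1.1 ∈ D} ×ˢ Iic (0 : ℝ))).indicator W := by
    funext z
    by_cases hz : z ∈ cov g '' ({p : UT g | p.1.1 ∈ D} ×ˢ Iic (0 : ℝ))
    · rw [indicator_of_mem hz]
      obtain ⟨a, ha, rfl⟩ := hz
      exact indicator_of_mem (show cov g a ∈ D ×ˢ univ from ⟨ha.1, trivial⟩) _
    · rw [indicator_of_notMem hz]
      by_cases h1 : z ∈ D ×ˢ (univ : Set (E n))
      · rw [indicator_of_mem h1]
        by_cases h2 : ∃ a, cov g a = z
        · obtain ⟨a, rfl⟩ := h2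
          rw [eW]
          exact indicator_of_notMem (fun h3 => hz ⟨a, ⟨h1.1, h3.2⟩, rfl⟩) _
        · exact Function.extend_apply' _ _ _ h2
      · exact indicator_of_notMem h1 _
  have iW : Integrable ((D ×ˢ (univ : Set (E n))).indicator W) := by
    rw [key, integrable_indicator_iff (em.measurableSet_image.2 mA)]
    refine Measure.integrableOn_of_bounded (M := |C|) ?_ mW.aestronglyMeasurable ?_
    · rw [← (cov' n g hg).cone]
      exact cone_fin hn hg mD bD
    · refine ae_restrict_of_forall_mem (em.measurableSet_image.2 mA) ?_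
      rintro _ ⟨a, ha, rfl⟩
      rw [eW, Real.norm_eq_abs]
      have : w₀ a = w a.1 := indicator_of_mem (show a ∈ univ ×ˢ Iic 0 from ⟨trivial, ha.2⟩) _
      rw [this]
      exact (hC _).trans (le_abs_self C)
  have sl : ∀ x, (∫ P, (D ×ˢ (univ : Set (E n))).indicator W (x, P)) =
      D.indicator (fun x => ∫ P, W (x, P)) x := fun x => by
    by_cases hx : x ∈ D
    · simp [indicator, hx]
    · simp [indicator, hx]
  refine ⟨fun x => ∫ P, W (x, P), ?_, ?_, fun x R σ hp => ?_⟩
  · rw [Measure.volume_eq_prod] at iW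
    have := iW.integral_prod_left
    simp only [sl] at this
    exact (integrable_indicator_iff mD).1 this
  · rw [nu, integral_map measurable_fst.aemeasurable hw.aestronglyMeasurable,
      ← integral_indicator mD]
    simp only [← sl]
    rw [Measure.volume_eq_prod] at iW
    rw [← integral_prod _ iW, ← Measure.volume_eq_prod, key,
      integral_indicator (em.measurableSet_image.2 mA)]
    have h1 : ∫ z in cov g '' ({p : UT g | p.1.1 ∈ D} ×ˢ Iic (0 : ℝ)), W z =
        ∫ z in cov g '' ({p : UT g | p.1.1 ∈ D} ×ˢ Iic (0 : ℝ)), W z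
          ∂(Measure.comap (cov g) volume).map (cov g) := by
      rw [em.map_comap, Measure.restrict_restrict (em.measurableSet_image.2 mA),
        inter_eq_left.2 (image_subset_range _ _)]
    rw [h1, em.setIntegral_map, preimage_image_eq _ em.injective]
    refine setIntegral_congr_fun mA fun a ha => ?_
    show w a.1 = W (cov g a)
    rw [eW]
    exact (indicator_of_mem (show a ∈ univ ×ˢ Iic 0 from ⟨trivial, ha.2⟩) fun a => w a.1).symm
  · let T : E n →ₗ[ℝ] E n :=
      { toFun := fun v => (InnerProductSpace.toDual ℝ (E n)).symm (g x (R v))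
        map_add' := fun a b => by simp
        map_smul' := fun c a => by simp }
    have hT : LinearMap.det T ≠ 0 := by
      rw [Ne, LinearMap.det_eq_zero_iff_ker_ne_bot, not_not, LinearMap.ker_eq_bot']
      intro a ha
      have h1 : g x (R a) = 0 := by
        have : (InnerProductSpace.toDual ℝ (E n)).symm (g x (R a)) = 0 := ha
        simpa using this
      have h2 := hp.on a a
      rw [h1] at h2
      exact inner_self_eq_zero.1 h2.symm
    have mx : Measurable fun P => W (x, P) := mW.comp measurable_prodMk_left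
    have h1 : ∫ v, W (x, T v) = |(LinearMap.det T)⁻¹| * ∫ P, W (x, P) := by
      rw [← integral_map (φ := T) T.continuous_of_finiteDimensional.measurable.aemeasurable
        mx.aestronglyMeasurable, Measure.map_linearMap_addHaar_eq_smul_addHaar volume hT,
        integral_smul_measure, ENNReal.toReal_ofReal (abs_nonneg _), smul_eq_mul]
    have h2 : ∫ v, W (x, T v) = ∫ v in Metric.ball (0 : E n) 1, w (σ v) := by
      rw [← integral_indicator measurableSet_ball]
      refine integral_congr_ae ?_
      filter_upwards [ae_ball hn] with v hv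
      have hv0 : 0 < ‖v‖ := norm_pos_iff.2 hv.1
      have e : (x, T v) = cov g (σ v, Real.log ‖v‖) := by
        simp only [cov, hp.val v hv.1, Real.exp_log hv0, map_smul, smul_smul,
          mul_inv_cancel₀ hv0.ne', one_smul]
        rfl
      rw [e, eW]
      by_cases hb : ‖v‖ < 1
      · rw [indicator_of_mem (mem_ball_zero_iff.2 hb)]
        exact indicator_of_mem (show (σ v, Real.log ‖v‖) ∈ univ ×ˢ Iic 0 from
          ⟨trivial, Real.log_nonpos hv0.le hb.le⟩) fun a : UT g × ℝ => w a.1
      · rw [indicator_of_notMem (mt mem_ball_zero_iff.1 hb)]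
        exact indicator_of_notMem (fun h3 => (Real.log_pos
          (lt_of_le_of_ne (not_lt.1 hb) hv.2.symm)).not_ge h3.2) _
    refine ⟨|LinearMap.det T|, abs_pos.2 hT, ?_⟩
    rw [← h2, h1, ← mul_assoc, ← abs_mul, mul_inv_cancel₀ hT, abs_one, one_mul]

end Pool.Agent.MP_3ee8cb_gt.D3IN
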