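import Pool.Agent.MP_3ee8cb_gt.D3IN.Spec

/-! A map of the slit tangent bundle that is constant along rays and whose derivative kills
the directions tangent to the unit fibres is constant on every fibre. -/

namespace Pool.Agent.MP_3ee8cb_gt.D3IN

open CR LV Set Filter Topology

theorem foot : SFOOT := by
  intro n g y hn hg hd hom hz p q hpq
  have hopen : IsOpen {z : E n × E n | z.2 ≠ 0} :=
    isOpen_ne_fun continuous_snd continuous_const
  set x := p.1.1 with hx
  have hD : ∀ v : E n, v ≠ 0 → HasFDerivAt (fun w => y (x, w))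
      ((fderiv ℝ y (x, v)).comp (ContinuousLinearMap.inr ℝ (E n) (E n))) v := by
    intro v hv
    have h1 : DifferentiableAt ℝ y (x, v) :=
      hd.differentiableAt (hopen.mem_nhds (by simpa using hv))
    exact h1.hasFDerivAt.comp v (hasFDerivAt_prodMk_right x v)
  have hrad : ∀ v : E n, v ≠ 0 → fderiv ℝ y (x, v) (0, v) = 0 := by
    intro v hv
    have h0 : HasDerivAt (fun t : ℝ => t • v) v 1 := by
      simpa using (hasDerivAt_id (1 : ℝ)).smul_const v
    have h1 := hD ((1 : ℝ) • v) (by simpa using hv)
    have h2 := h1.comp_hasDerivAt (1 : ℝ) h0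
    have h3 : ((fun w => y (x, w)) ∘ fun t : ℝ => t • v) =ᶠ[𝓝 1] fun _ => y (x, v) := by
      filter_upwards [lt_mem_nhds (zero_lt_one' ℝ)] with t ht
      exact hom x v t ht hv
    have h4 := (h2.congr_of_eventuallyEq h3.symm).unique (hasDerivAt_const _ _)
    simpa using h4
  have hunit : ∀ v : E n, g x v v = 1 → HasFDerivAt (fun w => y (x, w)) (0 : E n →L[ℝ] E n) v := by
    intro v hv
    have hv0 : v ≠ 0 := by
      rintro rfl
      simp at hv
    have h1 := hD v hv0
    have h2 : (fderiv ℝ y (x, v)).comp (ContinuousLinearMap.inr ℝ (E n) (E n)) = 0 := by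
      ext1 e
      have h3 := hz ⟨(x, v), hv⟩ (e - g x v e • v) (by simp [hv])
      have h4 : ((0 : E n), e) = ((0 : E n), e - g x v e • v) + g x v e • ((0 : E n), v) := by
        simp
      have h5 : fderiv ℝ y (x, v) (0, e) = 0 := by
        rw [h4, map_add, map_smul, hrad v hv0, smul_zero, add_zero]
        exact h3
      simpa using h5
    rwa [h2] at h1
  have hall : ∀ v : E n, v ≠ 0 → HasFDerivAt (fun w => y (x, w)) (0 : E n →L[ℝ] E n) v := by
    intro v hv
    have hp := hg.pos x v hv
    set c : ℝ := (Real.sqrt (g x v v))⁻¹ with hc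
    have hc0 : 0 < c := inv_pos.2 (Real.sqrt_pos.2 hp)
    have hcc : g x (c • v) (c • v) = 1 := by
      have h1 : c * c * g x v v = 1 := by
        rw [hc, ← mul_inv, Real.mul_self_sqrt hp.le, inv_mul_cancel₀ hp.ne']
      simp only [map_smul, ContinuousLinearMap.smul_apply, smul_eq_mul]
      linarith
    have h1 := hunit _ hcc
    have h2 : HasFDerivAt (fun w : E n => c • w) (c • ContinuousLinearMap.id ℝ (E n)) v :=
      (hasFDerivAt_id v).const_smul c
    have h3 := HasFDerivAt.comp v (g := fun w => y (x, w)) (f := fun w : E n => c • w) h1 h2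
    have h4 : (fun w => y (x, w)) =ᶠ[𝓝 v] ((fun w => y (x, w)) ∘ fun w : E n => c • w) := by
      filter_upwards [isOpen_ne.mem_nhds hv] with w hw
      exact (hom x w c hc0 hw).symm
    have h5 := h3.congr_of_eventuallyEq h4
    simpa using h5
  have hconn : IsPreconnected ({0}ᶜ : Set (E n)) := by
    refine (isConnected_compl_singleton_of_one_lt_rank ?_ 0).isPreconnected
    rw [← Module.finrank_eq_rank, finrank_euclideanSpace_fin]
    exact_mod_cast hn
  have hne : ∀ r : UT g, r.1.2 ≠ 0 := by
    intro r h
    have := r.2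
    rw [h] at this
    simp at this
  have key := isOpen_compl_singleton.is_const_of_fderiv_eq_zero (𝕜 := ℝ)
    (f := fun w => y (x, w)) hconn
    (fun v hv => (hall v hv).differentiableAt.differentiableWithinAt)
    (fun v hv => (hall v hv).fderiv) (hne p) (hne q)
  have e1 : p.1 = (x, p.1.2) := rfl
  have e2 : q.1 = (x, q.1.2) := by rw [hpq]
  rw [e1, e2]
  exact key

end Pool.Agent.MP_3ee8cb_gt.D3IN
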