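import Pool.Agent.MP_3ee8cb_gt.D3IN.Spec2

/-! Properties of the extension of degree one. -/

namespace Pool.Agent.MP_3ee8cb_gt.D3IN

open D3 Set Filter MeasureTheory Topology

noncomputable section

theorem norm_unit {a : V} (ha : a ≠ 0) : ‖‖a‖⁻¹ • a‖ = 1 := by
  rw [norm_smul, norm_inv, norm_norm, inv_mul_cancel₀ (norm_ne_zero_iff.2 ha)]

theorem hat_zero (w : V × V → ℝ) {z : V × V} (hz : z.2 = 0) : hat w z = 0 := by
  simp [hat, hz]

theorem hat_cont {w : V × V → ℝ} (hw : ContinuousOn w {z | ‖z.2‖ = 1}) :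
    ContinuousOn (hat w) {z | z.2 ≠ 0} := by
  refine (continuous_snd.norm.continuousOn).mul (hw.comp ?_ ?_)
  · have h1 : ContinuousOn (fun z : V × V => ‖z.2‖⁻¹) {z | z.2 ≠ 0} :=
      (continuous_snd.norm.continuousOn).inv₀ fun z hz => norm_ne_zero_iff.2 hz
    have h2 := h1.smul (continuousOn_snd (s := {z : V × V | z.2 ≠ 0}))
    exact continuousOn_fst.prodMk h2
  · intro z hz
    exact norm_unit hz

theorem hat_meas {w : V × V → ℝ} (hw : ContinuousOn w {z | ‖z.2‖ = 1}) :
    Measurable (hat w) := by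
  classical
  have hs : MeasurableSet {z : V × V | z.2 ≠ 0} :=
    (isOpen_ne_fun continuous_snd continuous_const).measurableSet
  have h0 : ContinuousOn (hat w) {z : V × V | z.2 ≠ 0}ᶜ := by
    refine (continuousOn_const (c := (0 : ℝ))).congr fun z hz => ?_
    exact hat_zero w (by simpa using hz)
  have := (hat_cont hw).measurable_piecewise h0 hs
  rwa [Set.piecewise_same] at this

theorem hat_ok : SHAT := by
  intro m Γ _ _ O w hA hw hi
  refine ⟨hat_meas hw, hat_cont hw, ?_, ?_⟩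
  · obtain ⟨K, hK, hc⟩ := hA.cpt
    have hK' : IsCompact (K ×ˢ Metric.sphere (0 : V) 1) := hK.prod (isCompact_sphere _ _)
    obtain ⟨C, hC⟩ := hK'.exists_bound_of_continuousOn
      (hw.mono fun z hz => by simpa using hz.2)
    refine ⟨max C 0, le_max_right _ _, fun z => ?_⟩
    by_cases hz : z.2 = 0
    · rw [hat_zero w hz]; simp [hz]
    obtain ⟨γ, hγ⟩ := hc z.1
    have h1 := hi γ (z.1, ‖z.2‖⁻¹ • z.2) (norm_unit hz)
    have h2 := hC (γ • z.1, O γ z.1 (‖z.2‖⁻¹ • z.2))
      ⟨hγ, by simpa only [mem_sphere_zero_iff_norm, LinearIsometryEquiv.norm_map]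
        using norm_unit hz⟩
    simp only at h1
    rw [h1, Real.norm_eq_abs] at h2
    rw [hat, abs_mul, abs_norm, mul_comm]
    exact mul_le_mul_of_nonneg_right (h2.trans (le_max_left _ _)) (norm_nonneg _)
  · intro γ z
    by_cases hz : z.2 = 0
    · rw [hat_zero w hz, hat_zero w (by simp [hz])]
    have h1 := hi γ (z.1, ‖z.2‖⁻¹ • z.2) (norm_unit hz)
    simp only [map_smul] at h1
    simp only [hat, LinearIsometryEquiv.norm_map, h1]

end

end Pool.Agent.MP_3ee8cb_gt.D3IN
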