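import Pool.Agent.MP_3ee8cb_gt.D3IN.Spec2

/-! Averaging over the closed manifold: the assembly. -/

namespace Pool.Agent.MP_3ee8cb_gt.D3IN

open D3 Set Filter MeasureTheory Topology

namespace RInt

theorem hat_flow {m : MF} (hJ : m.Jac) (w : V × V → ℝ) (y : V) {b : V} (hb : ‖b‖ = 1) {r : ℝ}
    (hr : 0 < r) (s : ℝ) : hat w (m.Z s (y, r • b)) = r * w (m.Z (r * s) (y, b)) := by
  have h : ‖r • (m.Z (r * s) (y, b)).2‖ = r := by
    rw [norm_smul, hJ.norm, hb, mul_one, Real.norm_of_nonneg hr.le]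
  rw [hJ.scale, hat, h, smul_smul, inv_mul_cancel₀ hr.ne', one_smul]

theorem der {m : MF} (hO : m.OK) (hJ : m.Jac) {F G q : V × V → ℝ}
    (h : ∀ z : V × V, ‖z.2‖ = 1 → 0 ≤ q z ∧ ∃ d, HasDerivAt (fun t => F (m.Z t z)) d 0 ∧
      d ≤ G z - q z) (z : V × V) (t : ℝ) : ∃ d, HasDerivAt (fun s => hat F (m.Z s z)) d t ∧
      d ≤ ‖(m.Z t z).2‖ * hat G (m.Z t z) - ‖(m.Z t z).2‖ * hat q (m.Z t z) := by
  obtain ⟨y, a⟩ := z
  by_cases ha : a = 0
  · refine ⟨0, ?_, by simp [hJ.norm, ha]⟩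
    have : (fun s => hat F (m.Z s (y, a))) = fun _ => 0 := funext fun s => by
      simp [hat, hJ.norm, ha]
    rw [this]
    exact hasDerivAt_const _ _
  have hr : 0 < ‖a‖ := norm_pos_iff.2 ha
  have n0 : ‖(m.Z t (y, a)).2‖ = ‖a‖ := hJ.norm t (y, a)
  obtain ⟨b, hb, e⟩ : ∃ b : V, ‖b‖ = 1 ∧ a = ‖a‖ • b := ⟨‖a‖⁻¹ • a, by
    rw [norm_smul, norm_inv, norm_norm, inv_mul_cancel₀ hr.ne'], by
    rw [smul_smul, mul_inv_cancel₀ hr.ne', one_smul]⟩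
  rw [n0]
  generalize ‖a‖ = r at hr e
  subst e
  obtain ⟨-, d, h1, h2⟩ := h (m.Z (r * t) (y, b)) (by rw [hJ.norm, hb])
  refine ⟨r * (d * r), ?_, ?_⟩
  · have h3 : HasDerivAt (fun s : ℝ => r * (s - t)) r t := by
      simpa using ((hasDerivAt_id t).sub_const t).const_mul r
    have h4 := (HasDerivAt.comp_of_eq t h1 h3 (by simp)).const_mul r
    refine h4.congr_of_eventuallyEq (.of_forall fun s => ?_)
    simp only [Function.comp_apply]
    rw [hat_flow hJ F y hb hr, ← hO.add]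
    congr 3
    ring
  · rw [hat_flow hJ G y hb hr, hat_flow hJ q y hb hr, ← mul_sub, ← mul_sub, mul_comm d]
    gcongr

end RInt

theorem int (inv : SINV) (ab : SABS) (ha : SHAT) (pol : SPOL) (zer : SZER) : D3.SINT := by
  intro m Γ _ _ O F G q hO hJ hA hD cF cG cq hi hd hG z hz
  obtain ⟨D, d1, d2, d3, d4, d5⟩ := hD.2 z.1
  obtain ⟨F1, -, ⟨CF, F2, F3⟩, F4⟩ := ha m Γ O F hA cF fun γ z h => (hi γ z h).1
  obtain ⟨G1, -, ⟨CG, G2, G3⟩, G4⟩ := ha m Γ O G hA cG fun γ z h => (hi γ z h).2.1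
  obtain ⟨q1, q5, ⟨Cq, q2, q3⟩, q4⟩ := ha m Γ O q hA cq fun γ z h => (hi γ z h).2.2
  obtain ⟨fin, p2⟩ := pol m D G CG hO.cS.continuous d1 d2 G1 G3 hG
  have I := inv m Γ O D hO hJ hA hD.1 d1 d4 d5
  have ae : ∀ᵐ x ∂nb m D, ‖x.2‖ ≤ 1 :=
    (ae_restrict_mem (d1.prod measurableSet_ball)).mono fun x hx =>
      (mem_ball_zero_iff.1 hx.2).le
  have bd : ∀ {w : V × V → ℝ} {C : ℝ}, 0 ≤ C → (∀ z, |hat w z| ≤ C * ‖z.2‖) → ∀ x : V × V,
      ‖x.2‖ ≤ 1 → |hat w x| ≤ C ∧ |‖x.2‖ * hat w x| ≤ C := fun {w C} c h x hx => by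
    have h1 : |hat w x| ≤ C := (h x).trans (mul_le_of_le_one_right c hx)
    refine ⟨h1, ?_⟩
    rw [abs_mul, abs_norm]
    exact (mul_le_of_le_one_left (abs_nonneg _) hx).trans h1
  have mn : Measurable fun z : V × V => ‖z.2‖ := measurable_snd.norm
  have it : ∀ {w : V × V → ℝ} {C : ℝ}, 0 ≤ C → (∀ z, |hat w z| ≤ C * ‖z.2‖) →
      Measurable (hat w) → Integrable (fun z => ‖z.2‖ * hat w z) (nb m D) := fun {w C} c h hm =>
    Integrable.of_bound (mn.mul hm).aestronglyMeasurable C (ae.mono fun x hx => (bd c h x hx).2)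
  have mZ : Measurable fun p : ℝ × V × V => m.Z p.1 p.2 := hO.cZ.continuous.measurable
  have mk : Measurable fun z : V × V => ‖z.2‖ * hat G z - ‖z.2‖ * hat q z :=
    (mn.mul G1).sub (mn.mul q1)
  have key := ab (V × V) (nb m D) (fun p => hat F (m.Z p.1 p.2))
    (fun p => ‖(m.Z p.1 p.2).2‖ * hat G (m.Z p.1 p.2) - ‖(m.Z p.1 p.2).2‖ * hat q (m.Z p.1 p.2))
    (CF + CG + Cq) _ (F1.comp mZ) (mk.comp mZ) (ae.mono fun x hx t => by
      have h : ‖(m.Z t x).2‖ ≤ 1 := (hJ.norm t x).trans_le hx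
      have h1 := (bd F2 F3 _ h).1
      have h2 := (abs_sub _ _).trans (add_le_add (bd G2 G3 _ h).2 (bd q2 q3 _ h).2)
      exact ⟨h1.trans (by linarith), h2.trans (by linarith)⟩)
    (fun x t => RInt.der hO hJ hd x t) ((I _ F1 F4 1).trans (I _ F1 F4 0).symm)
    (I _ mk fun γ z => by simp only [LinearIsometryEquiv.norm_map, G4, q4])
  rw [integral_sub (it G2 G3 G1) (it q2 q3 q1)] at key
  exact zer m D q z.1 z.2 hO d1 d3 hz q5 (fun z h => (hd z h).1) (it q2 q3 q1) (by linarith)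

end Pool.Agent.MP_3ee8cb_gt.D3IN
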