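import Pool.Agent.MP_3ee8cb_gt.D3IN.Spec2
import Pool.Agent.MP_3ee8cb_gt.CR.RPACK

/-! Row INV: integrals of invariant functions do not change under the flow. -/

namespace Pool.Agent.MP_3ee8cb_gt.D3IN

open D3 Set Filter MeasureTheory Topology

namespace RInv

theorem le {X Γ : Type} [MeasurableSpace X] [Group Γ] [Countable Γ] (μ : Measure X)
    (T : Γ → X → X) (Ω W₁ W₂ : Set X) (hT : ∀ γ, MeasurePreserving (T γ) μ μ)
    (hi : ∀ γ z, T γ⁻¹ (T γ z) = z) (hΩ : ∀ γ, ∀ z ∈ Ω, T γ z ∈ Ω) (mΩ : MeasurableSet Ω)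
    (m₁ : MeasurableSet W₁) (u₁ : ∀ z, ∃! γ, T γ z ∈ W₁) (u₂ : ∀ z, ∃! γ, T γ z ∈ W₂) :
    μ (W₁ ∩ Ω) ≤ μ (W₂ ∩ Ω) := by
  refine CR.pack X Γ μ T Ω _ _ hT (fun γ z hz => ⟨hΩ γ z hz, hi γ z⟩) mΩ (m₁.inter mΩ)
    inter_subset_right inter_subset_right (fun γ δ z _ h1 h2 => (u₁ z).unique h1.1 h2.1)
    fun z hz => ?_
  obtain ⟨γ, hγ, -⟩ := u₂ z
  exact ⟨γ⁻¹, T γ z, ⟨hγ, hΩ γ z hz.2⟩, (hi γ z).symm⟩

end RInv

theorem inv (pres : SPRES) (det : SDET) : SINV := by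
  intro m Γ _ _ O D ok jac act _ mD hD uD f mf hf t
  let T : Γ → V × V → V × V := fun γ z => (γ • z.1, O γ z.1 z.2)
  have hi : ∀ γ z, T γ⁻¹ (T γ z) = z := fun γ z => Prod.ext (inv_smul_smul γ z.1) (by
    change O γ⁻¹ (γ • z.1) (O γ z.1 z.2) = z.2
    rw [← act.mul, inv_mul_cancel, act.one])
  have hT : ∀ γ, MeasurePreserving (T γ) (mu m) (mu m) := fun γ =>
    pres m _ ok.cS.continuous (Function.bijective_iff_has_inverse.2
      ⟨T γ⁻¹, hi γ, fun z => by simpa using hi γ⁻¹ z⟩) (act.c1 γ) (det m Γ O act γ)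
  have hz : ∀ s z, m.Z (-s) (m.Z s z) = z := fun s z => by
    rw [← ok.add, neg_add_cancel, ok.zero]
  have hz' : ∀ s z, m.Z s (m.Z (-s) z) = z := fun s z => by simpa using hz (-s) z
  have hZ : ∀ s, MeasurePreserving (m.Z s) (mu m) (mu m) := fun s =>
    pres m _ ok.cS.continuous (Function.bijective_iff_has_inverse.2 ⟨m.Z (-s), hz s, hz' s⟩)
      (ok.cZ.comp (contDiff_const.prodMk contDiff_id)) fun z => jac.vol z s
  have u : ∀ x : V, ∃! γ : Γ, γ • x ∈ D := fun x => by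
    obtain ⟨γ, hγ⟩ := hD x
    refine ⟨γ, hγ, fun δ hδ => mul_inv_eq_one.1 (uD (δ * γ⁻¹) _ hγ ?_)⟩
    rwa [mul_smul, inv_smul_smul]
  have mW : MeasurableSet (D ×ˢ Metric.ball (0 : V) 1) := mD.prod measurableSet_ball
  have mD' : MeasurableSet {z : V × V | z.1 ∈ D} := measurable_fst mD
  have key : Measure.map (f ∘ m.Z t) (nb m D) = Measure.map f (nb m D) := by
    have mc : Measurable (f ∘ m.Z t) := mf.comp (hZ t).measurable
    refine Measure.ext fun S hS => ?_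
    rw [Measure.map_apply mc hS, Measure.map_apply mf hS, nb, Measure.restrict_apply (mc hS),
      Measure.restrict_apply (mf hS),
      ← (hZ (-t)).measure_preimage ((mc hS).inter mW).nullMeasurableSet]
    let Ω : Set (V × V) := {z | ‖z.2‖ < 1} ∩ f ⁻¹' S
    have mΩ : MeasurableSet Ω :=
      (measurableSet_lt measurable_snd.norm measurable_const).inter (mf hS)
    have hΩ : ∀ γ, ∀ z ∈ Ω, T γ z ∈ Ω := fun γ z h =>
      ⟨((O γ z.1).norm_map z.2).trans_lt h.1, show f (T γ z) ∈ S from (hf γ z).symm ▸ h.2⟩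
    have e₁ : m.Z (-t) ⁻¹' ((f ∘ m.Z t) ⁻¹' S ∩ D ×ˢ Metric.ball 0 1) =
        m.Z (-t) ⁻¹' {z | z.1 ∈ D} ∩ Ω := by
      ext z
      simp only [Ω, mem_preimage, mem_inter_iff, Function.comp_apply, hz', mem_prod,
        mem_ball_zero_iff, jac.norm, mem_ofPred_eq]
      tauto
    have e₂ : f ⁻¹' S ∩ D ×ˢ Metric.ball 0 1 = {z : V × V | z.1 ∈ D} ∩ Ω := by
      ext z
      simp only [Ω, mem_preimage, mem_inter_iff, mem_prod, mem_ball_zero_iff, mem_ofPred_eq]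
      tauto
    have u₁ : ∀ z, ∃! γ, T γ z ∈ m.Z (-t) ⁻¹' {z | z.1 ∈ D} := fun z => by
      simpa only [T, mem_preimage, act.flow, mem_ofPred_eq] using u (m.Z (-t) z).1
    have u₂ : ∀ z, ∃! γ, T γ z ∈ {z : V × V | z.1 ∈ D} := fun z => u z.1
    rw [e₁, e₂]
    exact le_antisymm (RInv.le _ T Ω _ _ hT hi hΩ mΩ ((hZ _).measurable mD') u₁ u₂)
      (RInv.le _ T Ω _ _ hT hi hΩ mΩ mD' u₂ u₁)
  have a := integral_map (μ := nb m D) (mf.comp (hZ t).measurable).aemeasurable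
    (f := fun x : ℝ => x) aestronglyMeasurable_id
  have b := integral_map (μ := nb m D) mf.aemeasurable (f := fun x : ℝ => x)
    aestronglyMeasurable_id
  rw [key, b] at a
  exact a.symm

end Pool.Agent.MP_3ee8cb_gt.D3IN
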