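import Pool.Agent.MP_3ee8cb_gt.D3IN.Spec
import Pool.Agent.MP_3ee8cb_gt.LV.All

/-! The Liouville measure of the source is invariant under its geodesic flow. -/

namespace Pool.Agent.MP_3ee8cb_gt.D3IN

open CR LV Set Filter MeasureTheory Topology

variable {n : ℕ}

/-- The time `t` map as a homeomorphism. -/
def flowH {g : Met n} {Γ : Type} [Group Γ] [MulAction Γ (E n)] {Φ : ℝ → UT g → UT g}
    (q : QP g Γ Φ) (t : ℝ) : UT g ≃ₜ UT g where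
  toFun := Φ t
  invFun := Φ (-t)
  left_inv p := by rw [← q.add, neg_add_cancel, q.rp.flow.zero]
  right_inv p := by rw [← q.add, add_neg_cancel, q.rp.flow.zero]
  continuous_toFun := q.jc.comp (continuous_const.prodMk continuous_id)
  continuous_invFun := q.jc.comp (continuous_const.prodMk continuous_id)

theorem ex_fund {g : Met n} {Γ : Type} [Group Γ] [MulAction Γ (E n)] (d : Deck g Γ) (x : E n) :
    ∃ D : Set (E n), Fund Γ D ∧ Bornology.IsBounded D ∧ D ∈ 𝓝 x := by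
  obtain ⟨D, m1, m2, m3, m4, m5⟩ := (CR.fd n g Γ d).2 x
  refine ⟨D, ⟨m1, fun y => ?_⟩, m2, m3⟩
  obtain ⟨γ, hγ⟩ := m4 y
  refine ⟨γ, hγ, fun δ hδ => ?_⟩
  have := m5 (δ * γ⁻¹) (γ • y) hγ (by rwa [mul_smul, inv_smul_smul])
  exact mul_inv_eq_one.1 this

/-- Minimising geodesics and equivariance on both sides. -/
theorem mins : OnC fun _ g h Γ Λ _ _ _ _ Φ Ψ _ _ => ∀ a : ℝ, 0 < a → TB.CurvLe h a →
    MinP g Φ ∧ MinP h Ψ ∧ EqvP g Γ Φ ∧ EqvP h Λ Ψ := by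
  intro n g h Γ Λ _ _ _ _ Φ Ψ ρ F _ qg qh cj a ha hc
  have hi := all_hinge n h Λ Ψ a qh.rp ha hc
  obtain ⟨mh, i2⟩ := hm n h Λ Ψ qh a ha hi
  have eh := eqv n h Λ Ψ qh mh
  have mg := (min2 n g h Γ Λ Φ Ψ ρ F qg qh cj (uq n g h Γ Λ Φ Ψ ρ F qg qh cj eh)
    (morse n h Λ Ψ qh a ha mh (th n h Λ Ψ qh a ha mh i2))).1
  exact ⟨mg, mh, eqv n g Γ Φ qg mg, eh⟩

theorem li : OnC fun n g h Γ _ _ _ _ _ Φ _ _ _ => ∀ a : ℝ, 0 < a → TB.CurvLe h a →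
    ∀ D : Set (E n), Fund Γ D → ∀ (t : ℝ) (S : Set (UT g)), MeasurableSet S →
      (∀ (γ : Γ) (p q : UT g), q.1 = tm γ p.1 → p ∈ S → q ∈ S) →
      volume (cone g {p | p.1.1 ∈ D ∧ p ∈ Φ t ⁻¹' S}) =
        volume (cone g {p | p.1.1 ∈ D ∧ p ∈ S}) := by
  intro n g h Γ Λ _ _ _ _ Φ Ψ ρ F h0 qg qh cj a ha hc D hD t S mS hS
  have hg := qg.rp.riem
  have hh := qh.rp.riem
  have fh := qh.rp.flow
  have hi := all_hinge n h Λ Ψ a qh.rp ha hc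
  obtain ⟨mh, i2⟩ := hm n h Λ Ψ qh a ha hi
  have t1 := th n h Λ Ψ qh a ha mh i2
  have bh := bp n h Λ Ψ qh mh
  obtain ⟨mg, -, eg, eh⟩ := mins n g h Γ Λ Φ Ψ ρ F h0 qg qh cj a ha hc
  obtain ⟨G, hG⟩ := chr n h hh
  have N : NP h Ψ := ⟨fh.zero, qh.add, qh.jc, bh,
    lps n h Λ Ψ qh a ha mh t1 (lp1 n h Λ Ψ qh a ha mh i2),
    chart alg key n h G Ψ a hh hG ha (lb2 n h Λ Ψ qh G a ha hG
      (tay2 n h Λ Ψ qh G hG (ode n h G Ψ hh hG fh)) (lb n h Λ Ψ qh a ha hi bh))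
      (cross n h Λ Ψ qh), cov' n h hh⟩
  have P₂ : MvP h Λ := fun γ => by
    obtain ⟨M, m₁, m₂⟩ := mv n h Λ Ψ qh eh γ
    exact ⟨M, m₁, fin_pres star (half sv2) glob N fh.zero bh N.cov m₂⟩
  obtain ⟨D', hD', -⟩ := ex_fund qh.rp.deck 0
  have K : ∀ F' : UT g ≃ₜ UT h, CJ g h Φ Ψ ρ F' → ∀ S : Set (UT g), MeasurableSet S →
      (∀ (γ : Γ) (p q : UT g), q.1 = tm γ p.1 → p ∈ S → q ∈ S) →
      volume (cone g {p | p.1.1 ∈ D ∧ p ∈ S}) =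
        volume (cone h {w | w.1.1 ∈ D' ∧ w ∈ F' '' S}) := fun F' c S m s =>
    fund n g h Γ Λ Φ Ψ ρ F' D D' S qg.rp.deck qh.rp.deck (cov' n g hg) N.cov c
      (fin_pres star (half sv2) glob N qg.rp.flow.zero (bp n g Γ Φ qg mg) (cov' n g hg)
        (min2 n g h Γ Λ Φ Ψ ρ F' qg qh c (uq n g h Γ Λ Φ Ψ ρ F' qg qh c eh)
          (morse n h Λ Ψ qh a ha mh t1)).2) P₂ hD hD' m s
  have c' : CJ g h Φ Ψ ρ ((flowH qg t).trans F) := ⟨fun s p => by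
      show F (Φ t (Φ s p)) = Ψ s (F (Φ t p))
      rw [← cj.flow, ← qg.add, ← qg.add, add_comm],
    fun γ p q e => cj.equi γ _ _ (eg γ p q e t)⟩
  rw [K F cj S mS hS, K _ c' (Φ t ⁻¹' S) ((flowH qg t).continuous.measurable mS)
    fun γ p q e hp => hS γ _ _ (eg γ p q e t) hp]
  have : ((flowH qg t).trans F) '' (Φ t ⁻¹' S) = F '' S := by
    show (F ∘ flowH qg t) '' _ = _
    rw [image_comp]
    exact congrArg _ (image_preimage_eq S (flowH qg t).surjective)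
  rw [this]

end Pool.Agent.MP_3ee8cb_gt.D3IN
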