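import Pool.Agent.MP_3ee8cb_gt.D3IN.Spec2

/-! Polar coordinates and the theorem of Fubini. -/

namespace Pool.Agent.MP_3ee8cb_gt.D3IN

open D3 Set Filter MeasureTheory Topology Metric

namespace RPol

theorem ball_le (w : V → ℝ) (h : sph w ≤ 0) :
    ∫ a in ball (0 : V) 1, ‖a‖ * (‖a‖ * w (‖a‖⁻¹ • a)) ≤ 0 := by
  let χ : Ioi (0 : ℝ) → ℝ := (Iio (⟨1, mem_Ioi.2 one_pos⟩ : Ioi (0 : ℝ))).indicator
    fun r => r.1 * r.1
  have h1 := (volume : Measure V).measurePreserving_homeomorphUnitSphereProd.integral_comp
    (Homeomorph.measurableEmbedding _) fun z => w z.1 * χ z.2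
  rw [integral_prod_mul (fun s : sphere (0 : V) 1 => w s) χ] at h1
  refine le_of_eq_of_le (Eq.trans ?_ h1) (mul_nonpos_of_nonpos_of_nonneg h
    (integral_nonneg (indicator_nonneg fun r _ => mul_self_nonneg _)))
  rw [← integral_indicator measurableSet_ball]
  refine ((congrArg (integral · _) (restrict_compl_singleton 0)).symm.trans
    (integral_subtype_comap (measurableSet_singleton _).compl _).symm).trans ?_
  refine integral_congr_ae (.of_forall fun x => ?_)
  have e : (homeomorphUnitSphereProd V x).2 ∈ Iio (⟨1, mem_Ioi.2 one_pos⟩ : Ioi (0 : ℝ)) ↔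
      x.1 ∈ ball (0 : V) 1 := by
    rw [mem_Iio, ← Subtype.coe_lt_coe, homeomorphUnitSphereProd_apply_snd_coe, mem_ball_zero_iff]
  by_cases k : x.1 ∈ ball (0 : V) 1
  · simp only [χ, indicator_of_mem k, indicator_of_mem (e.2 k),
      homeomorphUnitSphereProd_apply_fst_coe, homeomorphUnitSphereProd_apply_snd_coe]
    ring
  · simp only [χ, indicator_of_notMem k, indicator_of_notMem (mt e.1 k), mul_zero]

end RPol

theorem pol : SPOL := by
  intro m D G C hS hD hb _ _ hs
  have hc : Continuous fun z : V × V => |(m.S z.1).det| :=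
    (ContinuousLinearMap.continuous_det.comp (hS.comp continuous_fst)).abs
  have : IsLocallyFiniteMeasure (mu m) := IsLocallyFiniteMeasure.withDensity_ofReal hc
  refine ⟨isFiniteMeasure_restrict.2 (hb.prod isBounded_ball).measure_lt_top.ne, ?_⟩
  rw [nb, mu, restrict_withDensity (hD.prod measurableSet_ball),
    integral_withDensity_eq_integral_toReal_smul hc.measurable.ennreal_ofReal
      (.of_forall fun _ => ENNReal.ofReal_lt_top), Measure.volume_eq_prod,
    ← Measure.prod_restrict]
  by_cases hI : Integrable (fun z : V × V => (ENNReal.ofReal |(m.S z.1).det|).toReal •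
      (‖z.2‖ * hat G z)) ((volume.restrict D).prod (volume.restrict (ball (0 : V) 1)))
  · rw [integral_prod _ hI]
    refine integral_nonpos fun x => ?_
    dsimp only
    rw [integral_smul]
    exact mul_nonpos_of_nonneg_of_nonpos ENNReal.toReal_nonneg (RPol.ball_le _ (hs x))
  · exact (integral_undef hI).le

end Pool.Agent.MP_3ee8cb_gt.D3IN
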