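import Pool.Agent.MP_3ee8cb_gt.D3IN.Spec2

/-! The measure on pairs is preserved by maps with the right determinant. -/

namespace Pool.Agent.MP_3ee8cb_gt.D3IN

open D3 Set Filter MeasureTheory Topology

namespace RPres

theorem tri (f : V × V →L[ℝ] V × V) (P M N : V →L[ℝ] V)
    (h : ∀ a, f a = (P a.1, N a.1 + M a.2)) : f.det = P.det * M.det := by
  classical
  let b := Module.finBasis ℝ V
  have e : LinearMap.toMatrix (b.prod b) (b.prod b) (f : V × V →ₗ[ℝ] V × V) =
      Matrix.fromBlocks (LinearMap.toMatrix b b (P : V →ₗ[ℝ] V)) 0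
        (LinearMap.toMatrix b b (N : V →ₗ[ℝ] V)) (LinearMap.toMatrix b b (M : V →ₗ[ℝ] V)) := by
    ext i j
    rcases i with i | i <;> rcases j with j | j <;>
      simp [LinearMap.toMatrix_apply, h]
  rw [ContinuousLinearMap.det, ← LinearMap.det_toMatrix (b.prod b), e,
    Matrix.det_fromBlocks_zero₁₂, LinearMap.det_toMatrix, LinearMap.det_toMatrix]

theorem frame (m : MF) (z : V × V) : ((m.hor z).prod (m.ver z)).det = (m.S z.1).det := by
  rw [tri _ (m.S z.1) (.id ℝ V) ((m.om z.1).flip z.2) fun a => by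
    simp [MF.hor, MF.ver, add_comm]]
  simp [ContinuousLinearMap.det]

theorem comp (f g : V × V →L[ℝ] V × V) : (f.comp g).det = f.det * g.det :=
  LinearMap.det_comp (f : V × V →ₗ[ℝ] V × V) (g : V × V →ₗ[ℝ] V × V)

theorem iso (O : V ≃ₗᵢ[ℝ] V) : |(O.toContinuousLinearEquiv : V →L[ℝ] V).det| = 1 :=
  (LinearMap.normDet_eq_abs_det _).symm.trans O.toLinearIsometry.normDet_eq_one

end RPres

theorem det : SDET := by
  intro m Γ _ _ O hA γ z
  set Q : V →L[ℝ] V := ((O γ z.1).toContinuousLinearEquiv : V →L[ℝ] V) with hQ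
  have e : ((m.hor (γ • z.1, O γ z.1 z.2)).prod (m.ver (γ • z.1, O γ z.1 z.2))).comp
      (fderiv ℝ (fun z : V × V => (γ • z.1, O γ z.1 z.2)) z) =
      (Q.prodMap Q).comp ((m.hor z).prod (m.ver z)) :=
    ContinuousLinearMap.ext fun ξ => Prod.ext (hA.hor γ z ξ) (hA.ver γ z ξ)
  have h := congrArg (fun L : V × V →L[ℝ] V × V => |L.det|) e
  simp only [RPres.comp, RPres.frame] at h
  rw [RPres.tri (Q.prodMap Q) Q Q 0 fun a => by simp [Prod.map], abs_mul, abs_mul, abs_mul,
    RPres.iso, one_mul, one_mul] at h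
  exact h

theorem pres : SPRES := by
  intro m T _ hT h1 hd
  refine ⟨h1.continuous.measurable, Measure.ext fun B hB => ?_⟩
  have hA : MeasurableSet (T ⁻¹' B) := h1.continuous.measurable hB
  rw [Measure.map_apply h1.continuous.measurable hB, mu, withDensity_apply _ hA,
    withDensity_apply _ hB]
  have : Measure.IsAddHaarMeasure (volume : Measure (V × V)) :=
    Measure.prod.instIsAddHaarMeasure _ _
  have key := lintegral_image_eq_lintegral_abs_det_fderiv_mul (volume : Measure (V × V)) hA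
    (f' := fderiv ℝ T) (fun x _ => (h1.differentiable one_ne_zero x).hasFDerivAt.hasFDerivWithinAt)
    hT.1.injOn fun z => ENNReal.ofReal |(m.S z.1).det|
  rw [image_preimage_eq B hT.2] at key
  rw [key]
  refine lintegral_congr fun z => ?_
  rw [← ENNReal.ofReal_mul (abs_nonneg _), mul_comm, hd]

end Pool.Agent.MP_3ee8cb_gt.D3IN
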