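import Pool.Agent.MP_3ee8cb_gt.D3IN.Spec2

/-! A nonnegative function with vanishing integral vanishes over the interior. -/

namespace Pool.Agent.MP_3ee8cb_gt.D3IN

open D3 Set Filter MeasureTheory Topology

theorem zer_det {m : MF} (hm : m.OK) (y : V) : (m.S y).det ≠ 0 := by
  have h : (m.S y : V →ₗ[ℝ] V).comp (m.R y : V →ₗ[ℝ] V) = LinearMap.id := by
    ext1 a
    exact hm.SR y a
  have h2 := congrArg LinearMap.det h
  rw [LinearMap.det_comp, LinearMap.det_id] at h2
  exact left_ne_zero_of_mul_eq_one h2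

theorem zer_ac {m : MF} (hm : m.OK) : (volume : Measure (V × V)) ≪ mu m := by
  refine withDensity_absolutelyContinuous' ?_ (Eventually.of_forall fun z => ?_)
  · have hc : Continuous fun z : V × V => |(m.S z.1).det| :=
      (ContinuousLinearMap.continuous_det.comp (hm.cS.continuous.comp continuous_fst)).abs
    exact hc.measurable.ennreal_ofReal.aemeasurable
  · rw [Ne, ENNReal.ofReal_eq_zero, not_le]
    exact abs_pos.2 (zer_det hm z.1)

theorem zer_abs {X : Type} [TopologicalSpace X] [MeasurableSpace X] [OpensMeasurableSpace X]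
    {μ ν : Measure X} [μ.IsOpenPosMeasure] (hac : μ ≪ ν) {f : X → ℝ} {A U : Set X}
    (h0 : ∀ z, 0 ≤ f z) (hi : Integrable f (ν.restrict A)) (hle : ∫ z, f z ∂ν.restrict A ≤ 0)
    (hU : IsOpen U) (hsub : U ⊆ A) (hc : ContinuousOn f U) {z : X} (hz : z ∈ U) : f z = 0 := by
  have hI : ∫ z, f z ∂ν.restrict A = 0 := le_antisymm hle (integral_nonneg h0)
  have hae := (integral_eq_zero_iff_of_nonneg h0 hi).1 hI
  have hae2 : f =ᵐ[μ.restrict A] 0 := (hac.restrict A).ae_eq hae
  have hae3 : f =ᵐ[μ.restrict U] 0 := ae_restrict_of_ae_restrict_of_subset hsub hae2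
  exact Measure.eqOn_open_of_ae_eq hae3 hU hc continuousOn_const hz

theorem zer : SZER := by
  intro m D q x a hm hD hx ha hc hq hi hle
  have h0 : ∀ z : V × V, 0 ≤ ‖z.2‖ * hat q z := by
    intro z
    by_cases hz : z.2 = 0
    · rw [hz, norm_zero, zero_mul]
    · refine mul_nonneg (norm_nonneg _) (mul_nonneg (norm_nonneg _) (hq _ ?_))
      exact norm_smul_inv_norm hz
  have hUo : IsOpen (interior D ×ˢ (Metric.ball (0 : V) 1 \ {0})) :=
    isOpen_interior.prod (Metric.isOpen_ball.sdiff isClosed_singleton)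
  have hsub : interior D ×ˢ (Metric.ball (0 : V) 1 \ {0}) ⊆ D ×ˢ Metric.ball 0 1 :=
    prod_mono interior_subset sdiff_subset
  have hcU : ContinuousOn (fun z : V × V => ‖z.2‖ * hat q z)
      (interior D ×ˢ (Metric.ball (0 : V) 1 \ {0})) :=
    continuous_snd.norm.continuousOn.mul (hc.mono fun z hz => hz.2.2)
  have hn : ‖(2⁻¹ : ℝ) • a‖ = 2⁻¹ := by
    rw [norm_smul, ha, mul_one, Real.norm_eq_abs, abs_of_pos (by norm_num)]
  have hmem : (x, (2⁻¹ : ℝ) • a) ∈ interior D ×ˢ (Metric.ball (0 : V) 1 \ {0}) := by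
    refine ⟨mem_interior_iff_mem_nhds.2 hx, ?_, ?_⟩
    · rw [mem_ball_zero_iff, hn]
      norm_num
    · intro h
      have h1 : (2⁻¹ : ℝ) • a = 0 := h
      rw [h1, norm_zero] at hn
      norm_num at hn
  have h1 := zer_abs (zer_ac hm) h0 hi hle hUo hsub hcU hmem
  unfold hat at h1
  dsimp only at h1
  rw [hn, smul_smul, inv_mul_cancel₀ (by norm_num), one_smul] at h1
  linarith

end Pool.Agent.MP_3ee8cb_gt.D3IN
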