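import Pool.Agent.MP_3ee8cb_gt.D3.Spec

/-! Rows for the averaging step in frames. -/

namespace Pool.Agent.MP_3ee8cb_gt.D3IN

open D3 Set Filter MeasureTheory Topology

noncomputable section

/-- The invariant measure on pairs. -/
def mu (m : MF) : Measure (V × V) :=
  volume.withDensity fun z => ENNReal.ofReal |(m.S z.1).det|

/-- The part of the unit ball bundle over `D`. -/
def nb (m : MF) (D : Set V) : Measure (V × V) := (mu m).restrict (D ×ˢ Metric.ball 0 1)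

/-- The extension of degree one of a function on unit vectors. -/
def hat (w : V × V → ℝ) (z : V × V) : ℝ := ‖z.2‖ * w (z.1, ‖z.2‖⁻¹ • z.2)

/-- A bijection with the right determinant preserves `mu`. -/
def SPRES : Prop := ∀ (m : MF) (T : V × V → V × V), Continuous m.S → Function.Bijective T →
  ContDiff ℝ 1 T → (∀ z, |(m.S (T z).1).det| * |(fderiv ℝ T z).det| = |(m.S z.1).det|) →
  MeasurePreserving T (mu m) (mu m)

/-- The determinant of the action. -/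
def SDET : Prop := ∀ (m : MF) (Γ : Type) [Group Γ] [MulAction Γ V] O, Act m Γ O →
  ∀ (γ : Γ) (z : V × V), |(m.S (γ • z.1)).det| *
    |(fderiv ℝ (fun z : V × V => (γ • z.1, O γ z.1 z.2)) z).det| = |(m.S z.1).det|

/-- The integral of an invariant function does not change under the flow. -/
def SINV : Prop := ∀ (m : MF) (Γ : Type) [Group Γ] [MulAction Γ V] O (D : Set V), m.OK → m.Jac →
  Act m Γ O → Countable Γ → MeasurableSet D → (∀ x : V, ∃ γ : Γ, γ • x ∈ D) →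
  (∀ (γ : Γ) (x : V), x ∈ D → γ • x ∈ D → γ = 1) → ∀ f : V × V → ℝ, Measurable f →
  (∀ (γ : Γ) (z : V × V), f (γ • z.1, O γ z.1 z.2) = f z) → ∀ t,
  ∫ z, f (m.Z t z) ∂nb m D = ∫ z, f z ∂nb m D

/-- The abstract averaging lemma. -/
def SABS : Prop := ∀ (X : Type) [MeasurableSpace X] (ν : Measure X) [IsFiniteMeasure ν]
  (f k : ℝ × X → ℝ) (C c : ℝ), Measurable f → Measurable k →
  (∀ᵐ x ∂ν, ∀ t, |f (t, x)| ≤ C ∧ |k (t, x)| ≤ C) →
  (∀ x t, ∃ d, HasDerivAt (fun s => f (s, x)) d t ∧ d ≤ k (t, x)) →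
  ∫ x, f (1, x) ∂ν = ∫ x, f (0, x) ∂ν → (∀ t, ∫ x, k (t, x) ∂ν = c) → 0 ≤ c

/-- Properties of the extension. -/
def SHAT : Prop := ∀ (m : MF) (Γ : Type) [Group Γ] [MulAction Γ V] O (w : V × V → ℝ),
  Act m Γ O → ContinuousOn w {z | ‖z.2‖ = 1} →
  (∀ (γ : Γ) (z : V × V), ‖z.2‖ = 1 → w (γ • z.1, O γ z.1 z.2) = w z) →
  Measurable (hat w) ∧ ContinuousOn (hat w) {z | z.2 ≠ 0} ∧
    (∃ C, 0 ≤ C ∧ ∀ z, |hat w z| ≤ C * ‖z.2‖) ∧
    ∀ (γ : Γ) (z : V × V), hat w (γ • z.1, O γ z.1 z.2) = hat w z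

/-- Polar coordinates and the theorem of Fubini. -/
def SPOL : Prop := ∀ (m : MF) (D : Set V) (G : V × V → ℝ) (C : ℝ), Continuous m.S →
  MeasurableSet D → Bornology.IsBounded D → Measurable (hat G) →
  (∀ z, |hat G z| ≤ C * ‖z.2‖) → (∀ x, sph (fun a => G (x, a)) ≤ 0) →
  IsFiniteMeasure (nb m D) ∧ ∫ z, ‖z.2‖ * hat G z ∂nb m D ≤ 0

/-- A nonnegative function with vanishing integral vanishes over the interior. -/
def SZER : Prop := ∀ (m : MF) (D : Set V) (q : V × V → ℝ) (x a : V), m.OK → MeasurableSet D →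
  D ∈ 𝓝 x → ‖a‖ = 1 → ContinuousOn (hat q) {z | z.2 ≠ 0} →
  (∀ z : V × V, ‖z.2‖ = 1 → 0 ≤ q z) → Integrable (fun z => ‖z.2‖ * hat q z) (nb m D) →
  ∫ z, ‖z.2‖ * hat q z ∂nb m D ≤ 0 → q (x, a) = 0

end

end Pool.Agent.MP_3ee8cb_gt.D3IN
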